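import Pool.Agent.FU2.Defs

/-!
# Premises which are small formulas over formulas of bounded depth (MP_a6aa4e_lc)

Definitions used in the final statement of the squad FU3.  The other definitions are in
`Pool.Agent.FUR.Defs` (`PF`, `QBF`, `Rule`, `QPar`) and `Pool.Agent.FU2.Defs` (`RefP`).
-/

set_option autoImplicit false

namespace Pool.Agent.FU3

open Pool.Agent.FUR

/-- `AD true d φ`: `φ` is a `Σ_d` formula, `AD false d φ`: `φ` is a `Π_d` formula, where the binary
connectives `∨` (resp. `∧`) of one level may be nested arbitrarily (unbounded fan-in) and a negation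
exchanges `Σ` and `Π`.  Literals and constants have level `0` (and every other level); `Σ_(d+1)`
formulas are built by `∨` from `Π_d` formulas, and dually. -/
inductive AD : Bool → ℕ → PF → Prop
  | cst (b : Bool) (d : ℕ) (c : Bool) : AD b d (PF.cst c)
  | var (b : Bool) (d : ℕ) (v : ℕ) : AD b d (PF.var v)
  | neg {b : Bool} {d : ℕ} {φ : PF} (h : AD b d φ) : AD (!b) d (PF.neg φ)
  | up {b : Bool} {d : ℕ} {φ : PF} (h : AD b d φ) : AD (!b) (d + 1) φ
  | or {d : ℕ} {φ ψ : PF} (h : AD true (d + 1) φ) (h' : AD true (d + 1) ψ) :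
      AD true (d + 1) (PF.or φ ψ)
  | and {d : ℕ} {φ ψ : PF} (h : AD false (d + 1) φ) (h' : AD false (d + 1) ψ) :
      AD false (d + 1) (PF.and φ ψ)

/-- `L` is equivalent to a formula that is obtained from a formula with at most `s` symbols by
substituting formulas of depth at most `d` with at most `M` symbols for the variables -/
def Over (d s M : ℕ) (L : PF) : Prop :=
  ∃ (F : PF) (τ : ℕ → PF), (∀ σ : ℕ → Bool, (F.sub τ).eval σ = L.eval σ) ∧ F.size ≤ s ∧
    ∀ v, (∃ b, AD b d (τ v)) ∧ (τ v).size ≤ M

end Pool.Agent.FU3
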