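import Pool.Agent.FU3.Defs
import Pool.Agent.FU2.Stmts

/-!
# Squad FU3 (MP_a6aa4e_lc): premises in `FORMULA[n^(2-ε)] ∘ AC0`

THEOREM.  For every `d` there is `C` such that for all `n, s, r ≥ 1` with `n ≤ 2^r`: if the parity
formula `QPar n` has a refutation in Frege + ∀red (arbitrary sound rules) in which every premise of a
`∀`-reduction is equivalent to a member of a set `P` of at most `2^r` formulas, each of which is
obtained from a formula with at most `s` symbols by substituting formulas of depth `d` with at most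
`2^r` symbols for the variables, then `n² ≤ C s r^(2d+6)`.  So for `s = n^(2-ε)` the number of
premises or the size of the bounded depth parts is at least `2^(n^δ)`: a common generalisation of the
lower bounds for `AC⁰`-Frege + ∀red and of the squad FU2.  Nothing is assumed about the other lines.

PLAN.  (1) Switching lemma (SWC SWE CNT SWX): on a random restriction with `ℓ ≤ n₀/(64 T)` stars a
disjunction of functions with decision trees of depth `≤ T` has a decision tree of depth `≤ T`,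
except with probability `4^(-T-1)`.  `d` rounds (ITR) make all bounded depth parts functions of
Fourier degree `≤ T`.  (2) Multiplication with a Boolean function of degree `≤ T` has norm
`≤ exp(25 κ² T⁴)` for the weighted norm of FU2 (DEG; oblique projections), so Boolean combinations of
`s` such functions have the Fourier tails of formulas with `O(s T⁴)` leaves (CLN TLG NQG).
(3) A random subcube inside the live variables, decision lists of low degree (GRG CVT, `DL2` of FU2).

Delivery: `Pool/Agent/HelperNN_FU3/X.lean`, `import Pool.Agent.FU3.Stmts`, namespace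
`Pool.Agent.FU3.HNN`, `theorem x (hypotheses) : XStmt`.
-/

set_option autoImplicit false

open Finset

namespace Pool.Agent.FU3

open Pool.Agent.FUR Pool.Agent.FU2

variable {N : ℕ}

/-! ## Definitions -/

/-- restrictions, also used as terms; `none` = star (resp. variable does not occur) -/
abbrev RS (N : ℕ) : Type := Fin N → Option Bool

/-- the point `x`, changed to the values of `r` -/
def apl (r : RS N) (x : Fin N → Bool) : Fin N → Bool := fun v => (r v).getD (x v)

/-- restricted function -/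
def res (r : RS N) (f : BF N) : BF N := fun x => f (apl r x)

/-- the stars of `r` -/
def stars (r : RS N) : Finset (Fin N) := univ.filter fun v => r v = none

/-- the variables which are fixed by `r` (the variables of a term) -/
def supp (r : RS N) : Finset (Fin N) := univ.filter fun v => r v ≠ none

/-- `r'` extends `r` -/
def Ext (r r' : RS N) : Prop := ∀ v, r v ≠ none → r' v = r v

/-- decision trees of depth at most `t` -/
def Dt : ℕ → BF N → Prop
  | 0, f => ∃ b, ∀ x, f x = b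
  | t + 1, f => (∃ b, ∀ x, f x = b) ∨ ∃ v, ∀ b, Dt t (rst f v b)

/-- value of a term (conjunction of the literals `x v = b`, where `t v = some b`) -/
def tv (t : RS N) (x : Fin N → Bool) : Bool := decide (∀ v, t v = none ∨ t v = some (x v))

/-- value of a disjunction of terms -/
def dn (F : List (RS N)) : BF N := fun x => F.any fun t => tv t x

/-- the term `t` is falsified by `r` -/
def Fal (t r : RS N) : Prop := ∃ v b, t v = some b ∧ r v = some (!b)

/-- `g` on `J`, `r` elsewhere -/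
def put (J : Finset (Fin N)) (g r : RS N) : RS N := fun v => if v ∈ J then g v else r v

/-- The encoding of the switching lemma.  `Enc F s r r'`: `t` is the first term of `F` which is not
falsified by `r`; a nonempty set `J` of variables of `t` which are stars of `r` (all of them, if this is
not the last step) gets the values `π`, one continues with this restriction, and in the result the
values on `J` are replaced by those of `t`.  `s` is the total number of variables of the sets `J`. -/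
inductive Enc (F : List (RS N)) : ℕ → RS N → RS N → Prop
  | zero (r : RS N) : Enc F 0 r r
  | step {s : ℕ} {r r'' : RS N} (A : List (RS N)) (t : RS N) (C : List (RS N))
      (hF : F = A ++ t :: C) (hA : ∀ a ∈ A, Fal a r) (ht : ¬ Fal t r) (J : Finset (Fin N))
      (hJ : J.Nonempty) (hJs : ∀ v ∈ J, t v ≠ none ∧ r v = none)
      (hall : s = 0 ∨ ∀ v, t v ≠ none → r v = none → v ∈ J) (π : Fin N → Bool)
      (h : Enc F s (put J (fun v => some (π v)) r) r'') : Enc F (s + J.card) r (put J t r'')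

/-- Boolean combinations of `s` functions of the class `D` (constants are free) -/
inductive CL (D : BF N → Prop) : ℕ → BF N → Prop
  | cst (b : Bool) : CL D 0 (fun _ => b)
  | leaf (f : BF N) (h : D f) : CL D 1 f
  | not {s : ℕ} {f : BF N} (h : CL D s f) : CL D s (fun x => !(f x))
  | and {s t : ℕ} {f g : BF N} (h : CL D s f) (h' : CL D t g) : CL D (s + t) (fun x => f x && g x)

/-- Fourier degree at most `T` -/
def Dg (T : ℕ) (f : BF N) : Prop := ∀ S : Finset (Fin N), fc (ind f) S ≠ 0 → S.card ≤ T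

/-! ## A. Switching lemma -/

/-- **ENP** (60 lines).  `r'` extends `r` and has `s` stars less.
PROOF.  Induction.  In a step `r''` extends `put J (some ∘ π) r`, which has `|J|` stars less than `r`
(`J` consists of stars of `r`), and `put J t r''` has the same stars as `r''` (on `J` both are not
`none`); it extends `r`, since `J` consists of stars of `r`. -/
def ENPStmt : Prop := ∀ (N : ℕ) (F : List (RS N)) (s : ℕ) (r r' : RS N), Enc F s r r' →
  Ext r r' ∧ (stars r').card + s = (stars r).card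

/-- **SWE** (120 lines).  If `F` restricted by `r` has no decision tree of depth `s - 1`, there is a code.
PROOF.  Strong induction on `s` for all `r`.  The restricted function is not constant (a constant has
`Dt t` for all `t`), so it is not identically false and some term is not falsified by `r` (a term that is
falsified by `r` has the value false at `apl r x`); let `t` be the first one, `J₀` the set of the stars
of `r` among the variables of `t`.  `J₀` is not empty (otherwise `t` is true at all `apl r x`, and the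
restricted function is constant true).  If `s ≤ |J₀|` take `J ⊆ J₀` with `s` elements, any `π`, and
`Enc.zero`.  If `|J₀| < s`: there is `π` such that `put J₀ π r` has no decision tree of depth
`s - 1 - |J₀|` (otherwise query the variables of `J₀` one after the other; `rst (res r f) v b =
res (put {v} b r) f` if `r v = none`: induction on `J₀`: if `Dt t (res (put J π r) f)` for all `π` then
`Dt (t + |J|) (res r f)`); continue with `s - |J₀| ≥ 1`. -/
def SWEStmt : Prop := ∀ (N : ℕ) (F : List (RS N)) (s : ℕ) (r : RS N), 1 ≤ s →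
  ¬ Dt (s - 1) (res r (dn F)) → ∃ r', Enc F s r r'

/-- **SWC** (150 lines; uses ENP).  At most `(4 w)^s` restrictions have the code `r'`.
PROOF.  Strong induction on `s` for all `r'`.  `s = 0`: only `r = r'`.  `s ≥ 1`: the last constructor is
`step`.  The term `t` is the first term of `F` which is not falsified by `r'`: `r'` extends `r` (ENP), so
the terms of `A` are falsified by `r'`; `t` is not: on `J` the value of `r' = put J t r''` is that of `t`;
if `v ∉ J`, `t v = some b`: if `r v ≠ none` then `r v = some b` (`t` is not falsified by `r`) and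
`r' v = r v`; if `r v = none`, then by `hall` `s = 0`, `r'' = put J π r`, `r' v = r v = none`.  So `t` is
determined by `r'` (uniqueness of the decomposition `F = A ++ t :: C` with this property).
`J` is a subset of `supp t` with `1 ≤ |J| ≤ s`, and for given `J`, `π|J` we have
`r'' = put J (some ∘ π) r'`, `r₁ := put J (some ∘ π) r` has the code `r''` with the number `s - |J|`,
and `r = put J (fun _ => none) r₁`.  So the number is at most
`∑_{J} 2^|J| (4w)^(s-|J|) ≤ ∑_{j=1}^s C(w,j) 2^j (4w)^(s-j) ≤ (4w)^s ∑_j 2^(-j) ≤ (4w)^s`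
(`C(w,j) ≤ w^j`). -/
def SWCStmt : Prop := ∀ (N : ℕ) (F : List (RS N)) (w s : ℕ) (r' : RS N), 1 ≤ w →
  (∀ t ∈ F, (supp t).card ≤ w) → {r : RS N | Enc F s r r'}.ncard ≤ (4 * w) ^ s

/-- **CNT** (80 lines).  The number of extensions with `ℓ` stars.
PROOF.  Bijection with the pairs (set of stars `K ⊆ stars r₀`, values on `stars r₀ \ K`). -/
def CNTStmt : Prop := ∀ (N : ℕ) (r₀ : RS N) (ℓ : ℕ), ℓ ≤ (stars r₀).card →
  {r : RS N | Ext r₀ r ∧ (stars r).card = ℓ}.ncard =
    (stars r₀).card.choose ℓ * 2 ^ ((stars r₀).card - ℓ)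

/-- **SWX** (150 lines; uses ENP SWE SWC CNT).  Simultaneous switching.
PROOF.  `s = T + 1`, `n₀ = |stars r₀|`.  If `ℓ < s` every restricted function with `ℓ` stars depends on
at most `ℓ ≤ T` variables and has a decision tree of depth `T` (or: by SWE and ENP there would be a code
with `stars + s = ℓ`).  Otherwise the bad `r` (extending `r₀`, `ℓ` stars, some `i` fails) have codes `r'`
extending `r₀` with `ℓ - s` stars, so there are at most
`m (4T)^s C(n₀, ℓ-s) 2^(n₀-ℓ+s)`; all together `C(n₀, ℓ) 2^(n₀-ℓ)`.  `C(n₀,ℓ-s) (n₀-ℓ)^s ≤ C(n₀,ℓ) ℓ^s`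
(`C(n₀,ℓ-1) (n₀-ℓ+1) = C(n₀,ℓ) ℓ`, iterate), so bad < all if `m (8 T ℓ)^s < (n₀-ℓ)^s`; and
`n₀ - ℓ ≥ 63 T ℓ > 32 T ℓ` (`ℓ ≥ 1`), `m ≤ 4^T < 4^s`. -/
def SWXStmt : Prop := ∀ (N T ℓ m : ℕ) (r₀ : RS N) (F : Fin m → List (RS N)), 1 ≤ T → 1 ≤ ℓ →
  64 * T * ℓ ≤ (stars r₀).card → m ≤ 4 ^ T → (∀ i, ∀ t ∈ F i, (supp t).card ≤ T) →
  ∃ r : RS N, Ext r₀ r ∧ (stars r).card = ℓ ∧ ∀ i, Dt T (res r (dn (F i)))

/-! ## B. Decision trees -/

/-- **DTR** (100 lines).  Elementary facts on decision trees.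
PROOF.  Inductions on the depth: (1) negation; (2) restriction: `rst (res r f) v b` is
`res r (rst f v b)` if `r v = none`, and `res r f` is `res r (rst f v c)` if `r v = some c`; (3) more
depth; (4) a disjunction of terms: for `v` queried at the root the terms are those of the two subtrees
with the literal `x v = b` added (if a term of the subtree contains `v` with another value it is
omitted, otherwise `v ↦ some b` is put in; width `+ 1` at most). -/
def DTRStmt : Prop :=
  (∀ (N t : ℕ) (f : BF N), Dt t f → Dt t fun x => !(f x)) ∧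
  (∀ (N t : ℕ) (f : BF N) (r : RS N), Dt t f → Dt t (res r f)) ∧
  (∀ (N t u : ℕ) (f : BF N), t ≤ u → Dt t f → Dt u f) ∧
  (∀ (N t : ℕ) (f : BF N), Dt t f → ∃ F : List (RS N), (∀ a ∈ F, (supp a).card ≤ t) ∧
    ∀ x, dn F x = f x)

/-- **DTF** (80 lines).  Decision trees have small Fourier degree.
PROOF.  Induction on the depth: `ind f = ∑_b ind (x v = b) * ind (rst f v b)`; the Fourier
coefficients of the product are those of `ind (rst f v b)` at `S` and `S ∆ {v}` (up to the factor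
`±1/2`; compare `Pool.Agent.FU2.H42.fc_lit` in `Helper42_FU2/OBL.lean`), so they vanish for
`|S| > t + 1`. -/
def DTFStmt : Prop := ∀ (N t : ℕ) (f : BF N), Dt t f → Dg t f

/-- **STP** (100 lines; uses SWX DTR).  One round: disjunctions (`b i = true`) and conjunctions
(`b i = false`) of functions with decision trees of depth `T`.
PROOF.  By DTR (4) (for the functions, if `b i = true`, or for their negations, DTR (1)) the function
`res r₀ (G i)` or its negation is `dn (F i)`, `F i` the concatenation of the lists of terms, width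
`≤ T`.  SWX; `res r (res r₀ f) = res r f` if `r` extends `r₀`; DTR (1). -/
def STPStmt : Prop := ∀ (N T ℓ m : ℕ) (r₀ : RS N) (b : Fin m → Bool) (l : Fin m → List (BF N))
  (G : Fin m → BF N), 1 ≤ T → 1 ≤ ℓ → 64 * T * ℓ ≤ (stars r₀).card → m ≤ 4 ^ T →
  (∀ i, ∀ g ∈ l i, Dt T (res r₀ g)) →
  (∀ i x, G i x = if b i then (l i).any (fun g => g x) else (l i).all (fun g => g x)) →
  ∃ r : RS N, Ext r₀ r ∧ (stars r).card = ℓ ∧ ∀ i, Dt T (res r (G i))

/-! ## C. Formulas of bounded depth -/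

/-- **ADL** (80 lines).  A `Σ_(d+1)` formula is a disjunction of `Π_d` formulas, and dually.
PROOF.  Induction on the derivation of `AD b e φ`, statement for all `d` with `e = d + 1`: constants and
variables: `[φ]`; `up`: `[φ]`; `neg`: the negations of the members of the list; `or`, `and`: the two
lists together (lengths add up, `size = |φ| + |ψ| + 1`). -/
def ADLStmt : Prop := ∀ (b : Bool) (d : ℕ) (φ : PF), AD b (d + 1) φ →
  ∃ l : List PF, l.length ≤ φ.size ∧ (∀ ψ ∈ l, AD (!b) d ψ ∧ ψ.size ≤ φ.size) ∧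
    ∀ σ : ℕ → Bool, φ.eval σ = if b then l.any (fun ψ => ψ.eval σ) else l.all (fun ψ => ψ.eval σ)

/-- **ITR** (150 lines; uses ADL STP DTR).  `d` rounds.
PROOF.  Induction on `d` for all families.  `d = 0`: `r = fun _ => none`; a formula with `AD b 0 φ` is a
constant, a variable or an iterated negation of one of them, so the function is constant or a literal:
`Dt 1` (`Dt 0` with DTR (1), (3)).  `d + 1`: ADL for each member, the lists together are a family of at
most `A M` formulas of depth `d` of size `≤ M`; the induction hypothesis (`2 (A M) M^d = 2 A M^(d+1)`)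
gives `r'` with `n' = |stars r'|`, `(128 T)^d n' ≥ n ≥ (128 T)^(d+1)`, so `n' ≥ 128 T`; STP for the
`2 A` functions (`c = false, true`) with `ℓ = n' / (64 T)` (`128 T ℓ ≥ n'`).  (Family as a list of
pairs is fine: `φ ∈ Λ` for a list `Λ` of length `≤ A`.) -/
def ITRStmt : Prop := ∀ (d T A M n : ℕ) (Λ : List PF), 1 ≤ T → 1 ≤ M → Λ.length ≤ A →
  (∀ φ ∈ Λ, (∃ b, AD b d φ) ∧ φ.size ≤ M) → 2 * A * M ^ d ≤ 4 ^ T → (128 * T) ^ d ≤ n →
  ∃ r : RS n, n ≤ (128 * T) ^ d * (stars r).card ∧
    ∀ φ ∈ Λ, ∀ c : Bool, Dt T (res r fun x : Fin n → Bool => φ.eval (asg x c))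

/-- **CPF** (60 lines).  Formulas over formulas.
PROOF.  Induction on `F` (`or` by `not`, `and`; the number of leaves of `F` is at most `F.size`; `CL D s f`
implies `CL D t f` for `s ≤ t`: add constants... use the conjunction with `fun _ => true` of `CL D 0`;
for `t > s` prove the statement `∃ u ≤ F.size, CL D u _`). -/
def CPFStmt : Prop := ∀ (n : ℕ) (D : BF n → Prop) (r : RS n) (τ : ℕ → PF) (c : Bool) (F : PF),
  (∀ v ∈ F.vars, D (res r fun x : Fin n → Bool => (τ v).eval (asg x c))) →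
  ∃ u ≤ F.size, CL D u (res r fun x : Fin n → Bool => (F.sub τ).eval (asg x c))

/-! ## D. Fourier tails -/

/-- **DEG** (180 lines; uses `PRSStmt` of FU2).  Multiplication with a Boolean function of degree `≤ T`.
PROOF.  `h = ind f * g`, `k = (1 - ind f) * g`, `c = fc (1 - ind f)`, so `c V = 0` for `|V| > T`.
`B = ∑_S e^(2κ|S|) fc h S fc k S`, `a S = e^(κ|S|) fc h S`, `b S = e^(κ|S|) fc k S`.
`fc k S = ∑_U c (S ∆ U) fc k U` (`(1 - ind f) k = k`) and `∑_S c (S ∆ U) fc h S = 0` (`(1 - ind f) h = 0`), so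
`B = ∑_{S,U} (e^(2κ|S|) - e^(2κ|U|)) c (S ∆ U) fc h S fc k U = ∑_{S,U} 2 sinh (κ (|S| - |U|)) c (S ∆ U)
a S b U`, where only `| |S| - |U| | ≤ |S ∆ U| ≤ T` matters.  For fixed `j = |S| - |U|` and
`m = |U|` the sum `∑_{|U| = m, |S| = m + j} c (S ∆ U) a S b U` is the mean of
`(1 - ind f) a_{m+j} b_m` for `a_m = ∑_{|S| = m} a S ch S` (same for `b`), so its absolute value is at
most `‖a_{m+j}‖ ‖b_m‖` (Cauchy-Schwarz, `|1 - ind f| ≤ 1`, PRS), and the sum over `m` is at most
`‖a‖ ‖b‖` (Cauchy-Schwarz).  So `|B| ≤ ∑_{|j| ≤ T} 2 |sinh (κ j)| ‖a‖ ‖b‖ ≤ δ ‖a‖ ‖b‖`, `δ = 5 κ T²`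
(`sinh y ≤ 5y/4` for `0 ≤ y ≤ 1`, `4 · (5/4) κ T (T+1)/2 ≤ 5 κ T²`), `δ² ≤ 1/2`.  Hence
`wn g = ‖a‖² + ‖b‖² + 2 B ≥ (1 - δ²) ‖a‖²` and `‖a‖² = wn h ≤ wn g / (1 - δ²) ≤ exp (2 δ²) wn g`. -/
def DEGStmt : Prop := ∀ (N T : ℕ) (f : BF N) (κ : ℝ) (g : RF N), 1 ≤ T → 0 < κ →
  100 * (κ ^ 2 * (T : ℝ) ^ 4) ≤ 1 → Dg T f →
  wn (Real.exp κ) (fun x => ind f x * g x) ≤
    Real.exp (50 * (κ ^ 2 * (T : ℝ) ^ 4)) * wn (Real.exp κ) g

/-- **CLN** (60 lines; uses `OBLStmt` of FU2).  Boolean combinations.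
PROOF.  Induction; constants: the product is `g` or `0`; `not`: OBL; `and`: product. -/
def CLNStmt : Prop := ∀ (N : ℕ) (D : BF N → Prop) (t C : ℝ), 0 < t → 1 ≤ C →
  (∀ f, D f → ∀ g : RF N, wn t (fun x => ind f x * g x) ≤ C * wn t g) →
  ∀ (s : ℕ) (f : BF N), CL D s f → ∀ g : RF N, wn t (fun x => ind f x * g x) ≤ C ^ s * wn t g

/-- **NQG** (120 lines; uses DEG CLN, `PRSStmt DRFStmt` of FU2).  Few nonzero derivatives.
PROOF.  As rows TAL (`g = 1`, `wn t 1 = 1`) and NQB of FU2 (see `Helper9_FU2/TAL.lean`,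
`Helper69_FU2/Nqb.lean`), with the tail bound
`∑_S exp (2 κ |S|) fc (ind f) S ^ 2 ≤ exp (50 κ² T⁴) ^ u ≤ exp (50 κ² T⁴ s)`, `u ≤ s`. -/
def NQGStmt : Prop := ∀ (N q T u s : ℕ) (f : BF N) (κ : ℝ), 1 ≤ T → 0 < κ →
  100 * (κ ^ 2 * (T : ℝ) ^ 4) ≤ 1 → CL (Dg T) u f → u ≤ s →
  (Nq q f : ℝ) ≤ 2 ^ N * ((2 / κ) ^ q * Real.exp (50 * (κ ^ 2 * (T : ℝ) ^ 4) * s))

/-! ## E. Assembly -/

/-- **GRG** (120 lines).  Existence of a good subcube inside `K₀`.
PROOF.  As row GR2 of FU2 (`Helper70_FU2/GR2.lean`), with `K ⊆ K₀` and the sets `I ⊆ K₀` only (their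
number at `z` is at most the number counted by `Nq`). -/
def GRGStmt : Prop := ∀ (N k q M : ℕ) (K₀ : Finset (Fin N)) (F : Fin M → BF N), k ≤ K₀.card →
  q ≤ k → 2 ^ k * k.choose q * ∑ j, Nq q (F j) < 2 ^ N * K₀.card.choose q →
  ∃ (K : Finset (Fin N)) (ρ : Fin N → Bool), K ⊆ K₀ ∧ K.card = k ∧
    ∀ j x (I : Finset (Fin N)), I ⊆ K → I.card = q → dv I (ind (F j)) (ov K ρ x) = 0

/-- **CVT** (60 lines).  From restricted functions to functions.
PROOF.  `ρ' = apl r ρ`.  For `J ⊆ I ⊆ K ⊆ stars r`: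
`apl r (fS (ov K ρ x) J) = fS (ov K ρ' x) J` (check the coordinates in `K`, in `stars r \ K` and
outside), so `dv I (ind (res r f)) (ov K ρ x) = dv I (ind f) (ov K ρ' x)`. -/
def CVTStmt : Prop := ∀ (N : ℕ) (r : RS N) (K I : Finset (Fin N)) (ρ x : Fin N → Bool) (f : BF N),
  K ⊆ stars r → I ⊆ K →
  dv I (ind (res r f)) (ov K ρ x) = dv I (ind f) (ov K (apl r ρ) x)

/-- **NUG** (150 lines).  The parameters.
PROOF.  `q = r + 2`, `k = 5 q`, `T = (d + 4) r`, `κ² = q / (200 T⁴ s')`, `s' = s + q` (so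
`100 κ² T⁴ = q / (2 s') ≤ 1`), `C` large, `n₁ (128 T)^d ≥ n`.
`exp (50 κ² T⁴ (2 s)) ≤ exp (q / 2)`, `(2 / κ)^q = (800 T⁴ s' / q)^(q/2)`,
`C(k,q) n₁^q ≤ C(n₁,q) k^q` (`k ≤ n₁`).  So the claim follows from `3 · 2^r · X^q < 1`,
`X = 64 · (5 q / n₁) · √(800 e T⁴ s' / q) = 320 √(800 e) T² √(s' q) / n₁ ≤ 14945 T² √(s' q) / n₁`,
`X ≤ 1/4` if `(59780)² T⁴ s' q ≤ n₁²`; `s' q ≤ (s + 3 r) 3 r ≤ 12 s r²`, `n₁² ≥ n² / (128 T)^(2d) >
C s r^(2d+6) / (128 T)^(2d)`, so `C = 12 · 59780² · (d+4)^4 · (128 (d+4))^(2d)` is enough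
(`3 · 2^r · 4^(-(r+2)) < 1`).  `k = 5 q ≤ 15 r ≤ n₁`: from the same inequality (`n₁ ≥ 59780 √q √s' ≥
59780 √q √q`, as `s' ≥ q`).  `(128 T)^d ≤ n` from the same inequality, as `n ≤ n²/…`:
`n² > C s r^(2d+6) ≥ (128 (d+4) r)^(2d)`.  `2 (2^r s) (2^r)^d ≤ 4^T`: `s ≤ n² ≤ 4^r`,
`2 · 2^r · 4^r · 2^(r d) = 2^((d+3) r + 1) ≤ 4^((d+4) r)`. -/
def NUGStmt : Prop := ∀ d : ℕ, ∃ C : ℕ, ∀ n r s : ℕ, 1 ≤ r → 1 ≤ s → n ≤ 2 ^ r →
  C * s * r ^ (2 * d + 6) < n ^ 2 →
  ∃ (T q k : ℕ) (κ : ℝ), 1 ≤ T ∧ 2 * (2 ^ r * s) * (2 ^ r) ^ d ≤ 4 ^ T ∧ (128 * T) ^ d ≤ n ∧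
    0 < κ ∧ 100 * (κ ^ 2 * (T : ℝ) ^ 4) ≤ 1 ∧ 1 ≤ q ∧ q ≤ k ∧ 5 * (q - 1) < k ∧
    ∀ n₁ : ℕ, n₁ ≤ n → n ≤ (128 * T) ^ d * n₁ → k ≤ n₁ ∧
      ∀ M : ℕ, M ≤ 2 ^ r →
      2 ^ k * (k.choose q : ℝ) * ((3 * M) * (2 ^ n * ((2 / κ) ^ q *
        Real.exp (50 * (κ ^ 2 * (T : ℝ) ^ 4) * ((2 * s : ℕ) : ℝ))))) <
        2 ^ n * (n₁.choose q : ℝ)

/-- **FI4** (200 lines; uses ITR CPF DTF NQG GRG CVT NUG, `DL2Stmt` of FU2, `SEMStmt MATStmt` of FUR).
PROOF.  Suppose `C s r^(2d+6) < n²`.  `Pool.Agent.FU2.H42.exp1` (file `Helper42_FU2/EXP.lean`; import it)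
gives a list `ls` of distinct members of `P`, `M = ls.length ≤ |P| ≤ 2^r`, which is a decision list with
tests `tt L x` and outputs `L.eval (asg x false)`.  For `L ∈ ls` let `F_L`, `τ_L` be the formulas of
`Over d s (2^r) L`; the formulas `τ_L v`, `v ∈ F_L.vars` (at most `s`), are at most `2^r s`; ITR gives
`r₁ : RS n` with `n₁ = |stars r₁|`.  With DTF the leaves have degree `≤ T`, and with CPF (`D = Dg T`)
`res r₁` of `L.eval (asg x c)` is in `CL (Dg T) u`, `u ≤ s` (`L.eval = (F_L.sub τ_L).eval`); the test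
`tt L` is the conjunction of the two, `u ≤ 2 s`.  NQG bounds `Nq q` of the `3 M` functions
`res r₁ (tt L)`, `res r₁ (tt L)`, `res r₁ (L.eval (asg · false))`; NUG gives the hypothesis of GRG
(`K₀ = stars r₁`), CVT and DL2 (with `r = q - 1`) the contradiction, as in
`Helper42_FU2/FI3.lean` (copy the indexing from there). -/
def FI4Stmt : Prop := ∀ d : ℕ, ∃ C : ℕ, ∀ n r s : ℕ, 1 ≤ n → 1 ≤ r → 1 ≤ s → n ≤ 2 ^ r →
  ∀ R : Set Rule, (∀ ρ ∈ R, ρ.Sound) → ∀ P : Finset PF, P.card ≤ 2 ^ r →
    (∀ L ∈ P, Over d s (2 ^ r) L) → ∀ (Λ : List PF) (k : ℕ), RefP (QPar n) R P Λ k →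
    PF.cst false ∈ Λ → n ^ 2 ≤ C * s * r ^ (2 * d + 6)

end Pool.Agent.FU3
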